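import Pool.Agent.helper94.SCT.Spec
import Pool.Agent.helper74.TG.SW

/-!
# Row sct:PNF (MP_ad8ced_nt)

The prime number theorem with smooth weights and small twists.
-/

set_option autoImplicit false

namespace Pool.Agent.SCT

open Finset ArithmeticFunction MeasureTheory
open Pool.Agent.CH (nit eU)

/-- the phase -/
private noncomputable def PNF_E (X t u : ℝ) : ℂ :=
  Complex.exp (((-(t * (u + Real.log X)) : ℝ) : ℂ) * Complex.I)

/-- the weight times the phase -/
private noncomputable def PNF_H (g : ℝ → ℝ) (X t u : ℝ) : ℂ := ((g u : ℝ) : ℂ) * PNF_E X t u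

private theorem PNF_Enorm (X t u : ℝ) : ‖PNF_E X t u‖ = 1 := by
  unfold PNF_E
  rw [Complex.norm_exp_ofReal_mul_I]

private theorem PNF_Eder (X t u : ℝ) :
    HasDerivAt (PNF_E X t) (PNF_E X t u * (((-t : ℝ) : ℂ) * Complex.I)) u := by
  unfold PNF_E
  have h1 : HasDerivAt (fun u : ℝ => -(t * (u + Real.log X))) (-t) u := by
    have h := (((hasDerivAt_id u).add_const (Real.log X)).const_mul (-t))
    have h' : (fun u : ℝ => -(t * (u + Real.log X))) = fun u : ℝ => -t * (id u + Real.log X) := by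
      funext w
      simp
    rw [h', ← mul_one (-t)]
    simpa using h
  exact ((h1.ofReal_comp).mul_const Complex.I).cexp

private theorem PNF_Hder {g : ℝ → ℝ} (hg : Sm g) (X t u : ℝ) : HasDerivAt (PNF_H g X t)
    (((deriv g u : ℝ) : ℂ) * PNF_E X t u + ((g u : ℝ) : ℂ) * (PNF_E X t u * (((-t : ℝ) : ℂ) * Complex.I))) u := by
  have h1 : HasDerivAt g (deriv g u) u :=
    ((hg.1.differentiable (by simp)) u).hasDerivAt
  exact (h1.ofReal_comp).mul (PNF_Eder X t u)

private theorem PNF_Hcd {g : ℝ → ℝ} (hg : Sm g) (X t : ℝ) : ContDiff ℝ 1 (PNF_H g X t) := by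
  unfold PNF_H PNF_E
  have h1 : ContDiff ℝ 1 g := hg.1.of_le (by exact_mod_cast le_top)
  have h2 : ContDiff ℝ 1 (fun u : ℝ => ((g u : ℝ) : ℂ)) := Complex.ofRealCLM.contDiff.comp h1
  have h3 : ContDiff ℝ 1 (fun u : ℝ => ((-(t * (u + Real.log X)) : ℝ) : ℂ) * Complex.I) := by
    have h4 : ContDiff ℝ 1 (fun u : ℝ => -(t * (u + Real.log X))) := by fun_prop
    exact (Complex.ofRealCLM.contDiff.comp h4).mul contDiff_const
  exact h2.mul h3.cexp

private theorem PNF_Hcs {g : ℝ → ℝ} (hg : Sm g) (X t : ℝ) : HasCompactSupport (PNF_H g X t) := by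
  have h1 : HasCompactSupport (fun u : ℝ => ((g u : ℝ) : ℂ)) :=
    hg.2.comp_left (g := fun x : ℝ => (x : ℂ)) (by simp)
  exact h1.mul_right

/-- the bound for the derivative -/
private theorem PNF_dbound {g : ℝ → ℝ} (hg : Sm g) {R : ℝ} (hR1 : ∀ u, g u ≠ 0 → |u| ≤ R)
    (hR2 : ∀ u, |g u| ≤ R) : ∃ D : ℝ, 0 ≤ D ∧ ∀ X t u : ℝ,
    (R < |u| → deriv (PNF_H g X t) u = 0) ∧ ‖deriv (PNF_H g X t) u‖ ≤ D + R * |t| := by
  have h1 : ContDiff ℝ 1 g := hg.1.of_le (by exact_mod_cast le_top)
  obtain ⟨D, hD⟩ := (h1.continuous_deriv le_rfl).bounded_above_of_compact_support hg.2.deriv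
  refine ⟨max D 0, le_max_right _ _, fun X t u => ⟨fun hu => ?_, ?_⟩⟩
  · rw [(PNF_Hder hg X t u).deriv]
    have hts : tsupport g ⊆ Metric.closedBall (0 : ℝ) R := by
      refine closure_minimal ?_ Metric.isClosed_closedBall
      intro v hv
      rw [Metric.mem_closedBall, dist_zero_right, Real.norm_eq_abs]
      exact hR1 v hv
    have hnot : u ∉ tsupport g := by
      intro h
      have := hts h
      rw [Metric.mem_closedBall, dist_zero_right, Real.norm_eq_abs] at this
      linarith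
    have hg0 : g u = 0 := image_eq_zero_of_notMem_tsupport hnot
    have hd0 : deriv g u = 0 := by
      have h2 : u ∉ Function.support (deriv g) := fun h => hnot (support_deriv_subset h)
      simpa using h2
    rw [hg0, hd0]
    simp
  · rw [(PNF_Hder hg X t u).deriv]
    refine (norm_add_le _ _).trans (add_le_add ?_ ?_)
    · rw [norm_mul, PNF_Enorm, mul_one, Complex.norm_real]
      exact (hD u).trans (le_max_left _ _)
    · rw [norm_mul, norm_mul, norm_mul, PNF_Enorm, one_mul, Complex.norm_real, Complex.norm_real,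
        Complex.norm_I, mul_one, Real.norm_eq_abs, Real.norm_eq_abs, abs_neg]
      exact mul_le_mul_of_nonneg_right (hR2 u) (abs_nonneg t)

/-- the sum as an integral against the derivative -/
private theorem PNF_sum {g : ℝ → ℝ} (hg : Sm g) {X : ℝ} (t : ℝ) (K : ℕ) :
    ∑ n ∈ Icc 1 K, (vonMangoldt n : ℂ) * PNF_H g X t (Real.log ((n : ℝ) / X)) =
    -∫ u : ℝ, ∑ n ∈ Icc 1 K, (vonMangoldt n : ℂ) *
      (Set.Ici (Real.log ((n : ℝ) / X))).indicator (deriv (PNF_H g X t)) u := by
  have hint : Integrable (deriv (PNF_H g X t)) :=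
    ((PNF_Hcd hg X t).continuous_deriv le_rfl).integrable_of_hasCompactSupport (PNF_Hcs hg X t).deriv
  rw [integral_finsetSum]
  · rw [← Finset.sum_neg_distrib]
    refine Finset.sum_congr rfl fun n _ => ?_
    have h1 := HasCompactSupport.integral_Ioi_deriv_eq (PNF_Hcd hg X t) (PNF_Hcs hg X t)
      (Real.log ((n : ℝ) / X))
    rw [integral_const_mul, integral_indicator measurableSet_Ici, integral_Ici_eq_integral_Ioi, h1]
    ring
  · intro n _
    exact (hint.indicator measurableSet_Ici).const_mul _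

/-- the expected value as an integral against the derivative -/
private theorem PNF_exp {g : ℝ → ℝ} (hg : Sm g) {x : ℕ} (hx : 1 ≤ x) (t : ℝ) :
    F0 g x t = -∫ u : ℝ, ((((x : ℝ) ^ 2 * Real.exp u : ℝ)) : ℂ) * deriv (PNF_H g ((x : ℝ) ^ 2) t) u := by
  set X : ℝ := (x : ℝ) ^ 2 with hX
  have hx0 : (0 : ℝ) < x := by exact_mod_cast hx
  have hX0 : 0 < X := by positivity
  have hc := (PNF_Hcd hg X t)
  have hs := (PNF_Hcs hg X t)
  -- derivative of the product
  have hder : ∀ u : ℝ, HasDerivAt (fun u : ℝ => ((X * Real.exp u : ℝ) : ℂ) * PNF_H g X t u)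
      (((X * Real.exp u : ℝ) : ℂ) * PNF_H g X t u + ((X * Real.exp u : ℝ) : ℂ) * deriv (PNF_H g X t) u) u := by
    intro u
    have h1 : HasDerivAt (fun u : ℝ => X * Real.exp u) (X * Real.exp u) u := (Real.hasDerivAt_exp u).const_mul X
    have h2 : HasDerivAt (PNF_H g X t) (deriv (PNF_H g X t) u) u :=
      ((hc.differentiable one_ne_zero) u).hasDerivAt
    exact (h1.ofReal_comp).mul h2
  have hcont1 : Continuous (fun u : ℝ => ((X * Real.exp u : ℝ) : ℂ)) := by fun_prop
  have hi1 : Integrable (fun u : ℝ => ((X * Real.exp u : ℝ) : ℂ) * PNF_H g X t u) :=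
    (hcont1.mul hc.continuous).integrable_of_hasCompactSupport hs.mul_left
  have hi2 : Integrable (fun u : ℝ => ((X * Real.exp u : ℝ) : ℂ) * deriv (PNF_H g X t) u) :=
    (hcont1.mul (hc.continuous_deriv le_rfl)).integrable_of_hasCompactSupport hs.deriv.mul_left
  have h0 := integral_eq_zero_of_hasDerivAt_of_integrable hder (hi1.add hi2) hi1
  rw [integral_add hi1 hi2] at h0
  have h3 : F0 g x t = ∫ u : ℝ, ((X * Real.exp u : ℝ) : ℂ) * PNF_H g X t u := by
    unfold F0 Mt
    rw [← integral_const_mul]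
    refine integral_congr_ae (Filter.Eventually.of_forall fun u => ?_)
    change ((x : ℂ) ^ 2) ^ (1 - (t : ℂ) * Complex.I) *
      ((g u : ℂ) * Complex.exp ((1 - (t : ℂ) * Complex.I) * u)) =
      ((X * Real.exp u : ℝ) : ℂ) * PNF_H g X t u
    have hXc : ((x : ℂ) ^ 2) = ((X : ℝ) : ℂ) := by
      rw [hX]
      push_cast
      rfl
    have hXn : ((X : ℝ) : ℂ) ≠ 0 := by exact_mod_cast hX0.ne'
    rw [hXc, Complex.cpow_def_of_ne_zero hXn, ← Complex.ofReal_log hX0.le]
    unfold PNF_H PNF_E
    have h4 : ((X * Real.exp u : ℝ) : ℂ) = Complex.exp (((Real.log X + u : ℝ)) : ℂ) := by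
      rw [← Complex.ofReal_exp, Real.exp_add, Real.exp_log hX0]
    rw [h4]
    have h5 : Complex.exp (((Real.log X : ℝ) : ℂ) * (1 - (t : ℂ) * Complex.I)) *
        ((g u : ℂ) * Complex.exp ((1 - (t : ℂ) * Complex.I) * u)) =
        (g u : ℂ) * (Complex.exp (((Real.log X : ℝ) : ℂ) * (1 - (t : ℂ) * Complex.I)) *
          Complex.exp ((1 - (t : ℂ) * Complex.I) * u)) := by ring
    have h6 : Complex.exp ((Real.log X + u : ℝ) : ℂ) * (((g u : ℝ) : ℂ) *
        Complex.exp (((-(t * (u + Real.log X)) : ℝ) : ℂ) * Complex.I)) =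
        ((g u : ℝ) : ℂ) * (Complex.exp ((Real.log X + u : ℝ) : ℂ) *
          Complex.exp (((-(t * (u + Real.log X)) : ℝ) : ℂ) * Complex.I)) := by ring
    rw [h5, h6, ← Complex.exp_add, ← Complex.exp_add]
    congr 2
    push_cast
    ring
  rw [h3]
  exact eq_neg_of_add_eq_zero_left h0

theorem PNF : PNF_stmt := by
  intro g hg A B
  obtain ⟨R, hR0, hR1, hR2⟩ := hg.bound
  obtain ⟨D, hD0, hD⟩ := PNF_dbound hg hR1 hR2
  obtain ⟨C, z₀, hC, hpsi⟩ := Pool.Agent.helper74.TG.psi_pnt (A + B + 1)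
  -- the constant
  set Q : ℝ := 2 * R * (C * Real.exp R) * (D + R) with hQ
  have htend : Filter.Tendsto (fun x : ℕ => Real.log (x : ℝ)) Filter.atTop Filter.atTop :=
    Real.tendsto_log_atTop.comp tendsto_natCast_atTop_atTop
  obtain ⟨x₀, hx₀⟩ := Filter.eventually_atTop.1 ((htend.eventually_ge_atTop (max Q (max 1 R))).and
    ((Filter.eventually_ge_atTop 1).and
      ((tendsto_natCast_atTop_atTop (R := ℝ)).eventually_ge_atTop z₀)))
  refine ⟨x₀, fun x hx t ht => ?_⟩
  obtain ⟨hL, hx1, hxz⟩ := hx₀ x hx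
  set L : ℝ := Real.log x with hLdef
  have hLQ : Q ≤ L := (le_max_left _ _).trans hL
  have hL1 : 1 ≤ L := ((le_max_left _ _).trans (le_max_right _ _)).trans hL
  have hLR : R ≤ L := ((le_max_right _ _).trans (le_max_right _ _)).trans hL
  have hL0 : 0 < L := by linarith
  have hx0 : (0 : ℝ) < x := by exact_mod_cast hx1
  set X : ℝ := (x : ℝ) ^ 2 with hX
  have hX0 : 0 < X := by positivity
  -- the finite sum
  set K : ℕ := ⌈X * Real.exp R⌉₊ with hK
  have hKle : X * Real.exp R ≤ K := Nat.le_ceil _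
  have hDL : DL g X t = ∑ n ∈ Icc 1 K, (vonMangoldt n : ℂ) * PNF_H g X t (Real.log ((n : ℝ) / X)) := by
    rw [DL_eq hR1 hX0 K hKle]
    refine Finset.sum_congr rfl fun n hn => ?_
    have hn0 : (n : ℝ) ≠ 0 := by
      have : 1 ≤ n := (mem_Icc.1 hn).1
      have : (0 : ℝ) < n := by exact_mod_cast this
      exact this.ne'
    unfold PNF_H PNF_E nu nit
    rw [Real.log_div hn0 hX0.ne', sub_add_cancel, mul_assoc, neg_mul]
  rw [hDL, PNF_sum hg t K, PNF_exp hg hx1 t]
  have hint : Integrable (deriv (PNF_H g X t)) :=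
    ((PNF_Hcd hg X t).continuous_deriv le_rfl).integrable_of_hasCompactSupport (PNF_Hcs hg X t).deriv
  have hcont1 : Continuous (fun u : ℝ => ((X * Real.exp u : ℝ) : ℂ)) := by fun_prop
  have hi2 : Integrable (fun u : ℝ => ((X * Real.exp u : ℝ) : ℂ) * deriv (PNF_H g X t) u) :=
    (hcont1.mul ((PNF_Hcd hg X t).continuous_deriv le_rfl)).integrable_of_hasCompactSupport
      (PNF_Hcs hg X t).deriv.mul_left
  have hi3 : Integrable (fun u : ℝ => ∑ n ∈ Icc 1 K, (vonMangoldt n : ℂ) *
      (Set.Ici (Real.log ((n : ℝ) / X))).indicator (deriv (PNF_H g X t)) u) :=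
    integrable_finsetSum _ fun n _ => (hint.indicator measurableSet_Ici).const_mul _
  have hcomb : (-∫ u : ℝ, ∑ n ∈ Icc 1 K, (vonMangoldt n : ℂ) *
      (Set.Ici (Real.log ((n : ℝ) / X))).indicator (deriv (PNF_H g X t)) u) -
      (-∫ u : ℝ, ((X * Real.exp u : ℝ) : ℂ) * deriv (PNF_H g X t) u) =
      ∫ u : ℝ, (((X * Real.exp u : ℝ) : ℂ) * deriv (PNF_H g X t) u -
        ∑ n ∈ Icc 1 K, (vonMangoldt n : ℂ) *
          (Set.Ici (Real.log ((n : ℝ) / X))).indicator (deriv (PNF_H g X t)) u) := by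
    rw [integral_sub hi2 hi3]
    ring
  rw [hcomb]
  -- the pointwise bound
  set M : ℝ := C * (X * Real.exp R) / L ^ (A + B + 1) * (D + R * |t|) with hM
  have hM0 : 0 ≤ M := by positivity
  have hpt : ∀ u : ℝ, ‖((X * Real.exp u : ℝ) : ℂ) * deriv (PNF_H g X t) u -
      ∑ n ∈ Icc 1 K, (vonMangoldt n : ℂ) *
        (Set.Ici (Real.log ((n : ℝ) / X))).indicator (deriv (PNF_H g X t)) u‖ ≤
      (Set.Icc (-R) R).indicator (fun _ => M) u := by
    intro u
    by_cases hu : R < |u|
    · have h0 := (hD X t u).1 hu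
      have h1 : ∑ n ∈ Icc 1 K, (vonMangoldt n : ℂ) *
          (Set.Ici (Real.log ((n : ℝ) / X))).indicator (deriv (PNF_H g X t)) u = 0 := by
        refine Finset.sum_eq_zero fun n _ => ?_
        by_cases hn : u ∈ Set.Ici (Real.log ((n : ℝ) / X))
        · rw [Set.indicator_of_mem hn, h0, mul_zero]
        · rw [Set.indicator_of_notMem hn, mul_zero]
      rw [h1, h0, mul_zero, sub_zero, norm_zero]
      exact Set.indicator_nonneg (fun _ _ => hM0) u
    · push Not at hu
      have huI : u ∈ Set.Icc (-R) R := abs_le.1 hu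
      rw [Set.indicator_of_mem huI]
      set z : ℝ := X * Real.exp u with hz
      have hzX : z ≤ X * Real.exp R := mul_le_mul_of_nonneg_left (Real.exp_le_exp.2 huI.2) hX0.le
      have hz0 : 0 < z := by positivity
      have hzx : (x : ℝ) ≤ z := by
        have h1 : Real.exp (-R) ≤ Real.exp u := Real.exp_le_exp.2 huI.1
        have h2 : Real.exp R ≤ x := by
          have := Real.exp_le_exp.2 hLR
          rwa [hLdef, Real.exp_log hx0] at this
        have h3 : (x : ℝ) * Real.exp (-R) * x ≥ x := by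
          have h4 : 1 ≤ (x : ℝ) * Real.exp (-R) := by
            rw [Real.exp_neg, ← div_eq_mul_inv, one_le_div (Real.exp_pos R)]
            exact h2
          nlinarith
        calc (x : ℝ) ≤ x * Real.exp (-R) * x := h3
          _ = X * Real.exp (-R) := by rw [hX]; ring
          _ ≤ z := mul_le_mul_of_nonneg_left h1 hX0.le
      have h1 : ∑ n ∈ Icc 1 K, (vonMangoldt n : ℂ) *
          (Set.Ici (Real.log ((n : ℝ) / X))).indicator (deriv (PNF_H g X t)) u =
          ((∑ n ∈ Ioc 0 ⌊z⌋₊, vonMangoldt n : ℝ) : ℂ) * deriv (PNF_H g X t) u := by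
        push_cast
        rw [Finset.sum_mul]
        have hsub : Ioc 0 ⌊z⌋₊ ⊆ Icc 1 K := by
          intro n hn
          rw [mem_Ioc] at hn
          rw [mem_Icc]
          refine ⟨hn.1, ?_⟩
          have h2 : (n : ℝ) ≤ z := (Nat.le_floor_iff hz0.le).1 hn.2
          have h3 : (n : ℝ) ≤ K := h2.trans (hzX.trans hKle)
          exact_mod_cast h3
        rw [← Finset.sum_subset hsub]
        · refine Finset.sum_congr rfl fun n hn => ?_
          rw [mem_Ioc] at hn
          have hn0 : (0 : ℝ) < n := by exact_mod_cast hn.1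
          have h2 : (n : ℝ) ≤ z := (Nat.le_floor_iff hz0.le).1 hn.2
          have h3 : u ∈ Set.Ici (Real.log ((n : ℝ) / X)) := by
            rw [Set.mem_Ici, Real.log_le_iff_le_exp (by positivity), div_le_iff₀ hX0]
            linarith [mul_comm X (Real.exp u)]
          rw [Set.indicator_of_mem h3]
        · intro n hn hn'
          rw [mem_Icc] at hn
          have hn0 : (0 : ℝ) < n := by exact_mod_cast hn.1
          have h2 : z < n := by
            by_contra hc
            push Not at hc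
            exact hn' (mem_Ioc.2 ⟨hn.1, (Nat.le_floor_iff hz0.le).2 hc⟩)
          have h3 : u ∉ Set.Ici (Real.log ((n : ℝ) / X)) := by
            rw [Set.mem_Ici, Real.log_le_iff_le_exp (by positivity), div_le_iff₀ hX0]
            linarith [mul_comm X (Real.exp u)]
          rw [Set.indicator_of_notMem h3, mul_zero]
      rw [h1, ← sub_mul, norm_mul, ← Complex.ofReal_sub, Complex.norm_real, Real.norm_eq_abs, abs_sub_comm]
      refine mul_le_mul ?_ (hD X t u).2 (norm_nonneg _) (by positivity)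
      refine (hpsi z (hxz.trans hzx)).trans ?_
      have hlogz : L ≤ Real.log z := Real.log_le_log hx0 hzx
      refine div_le_div₀ (by positivity) (mul_le_mul_of_nonneg_left hzX hC.le) (by positivity) ?_
      exact pow_le_pow_left₀ hL0.le hlogz _
  have hbint : Integrable ((Set.Icc (-R) R).indicator (fun _ : ℝ => M)) := by
    rw [integrable_indicator_iff measurableSet_Icc]
    exact integrableOn_const (by simp)
  refine (norm_integral_le_of_norm_le hbint (Filter.Eventually.of_forall hpt)).trans ?_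
  rw [integral_indicator measurableSet_Icc, setIntegral_const, smul_eq_mul, Real.volume_real_Icc_of_le (by linarith)]
  -- the final estimate
  have hLB : 1 ≤ L ^ B := one_le_pow₀ hL1
  have ht' : D + R * |t| ≤ (D + R) * L ^ B := by
    have h1 : R * |t| ≤ R * L ^ B := mul_le_mul_of_nonneg_left ht hR0.le
    have h2 : D ≤ D * L ^ B := by nlinarith
    nlinarith
  have hfin : (R - -R) * M ≤ X / L ^ A := by
    have hLAB : (0 : ℝ) < L ^ (A + B + 1) := by positivity
    have h1 : M ≤ C * (X * Real.exp R) / L ^ (A + B + 1) * ((D + R) * L ^ B) :=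
      mul_le_mul_of_nonneg_left ht' (by positivity)
    have h2 : (R - -R) * M ≤ (R - -R) * (C * (X * Real.exp R) / L ^ (A + B + 1) * ((D + R) * L ^ B)) :=
      mul_le_mul_of_nonneg_left h1 (by linarith)
    refine h2.trans ?_
    have h3 : (R - -R) * (C * (X * Real.exp R) / L ^ (A + B + 1) * ((D + R) * L ^ B)) =
        Q / L * (X / L ^ A) := by
      have h4 : L ^ (A + B + 1) = L ^ A * L ^ B * L := by ring
      rw [h4, hQ]
      have h5 : L ^ A ≠ 0 := by positivity
      have h6 : L ^ B ≠ 0 := by positivity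
      field_simp
      ring
    rw [h3]
    have h7 : Q / L ≤ 1 := by
      rw [div_le_one hL0]
      exact hLQ
    calc Q / L * (X / L ^ A) ≤ 1 * (X / L ^ A) := mul_le_mul_of_nonneg_right h7 (by positivity)
      _ = X / L ^ A := one_mul _
  exact hfin

end Pool.Agent.SCT
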